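import Pool.Agent.N688.MV.Ret
import Pool.Agent.N646.AC.Bfin

set_option autoImplicit false
set_option maxHeartbeats 4000000

/-!
# Forms `a ^ y * m + c`: almost all vectors of exponents in a Bohr set of `ℤ ^ r`
-/

namespace Pool.Agent.N688.MV

open Finset Filter
open Pool.Agent.N646.AC
open Pool.Agent.Y827.LS
open Pool.Agent.Y827.GS
open Pool.Agent.Y827.RO
open Pool.Agent.Y827.HD

/-- `∏ a_l ^ (y_l)` -/
def mon {r : ℕ} (a : Fin r → ℕ) (y : Fin r → ℤ) : ℕ := ∏ l, a l ^ (y l).toNat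

/-- the form -/
def fm {r : ℕ} (a : Fin r → ℕ) (c : ℤ) (y : Fin r → ℤ) : ℤ × ℤ := ((mon a y : ℤ), c)

open Classical in
/-- the number of the `1 ≤ m ≤ X` such that `a ^ (h_i) m + c` is prime exactly for `i ∈ J` -/
noncomputable def cnt {r k : ℕ} (a : Fin r → ℕ) (c : ℤ) (h : Fin (k + 1) → Fin r → ℤ)
    (J : Finset (Fin (k + 1))) (X : ℕ) : ℕ :=
  ((Icc 1 X).filter (fun m : ℕ => ∀ i,
    (∃ q : ℕ, q.Prime ∧ (q : ℚ) = (∏ l, (a l : ℚ) ^ (h i l)) * m + c) ↔ i ∈ J)).card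

theorem cnt_mono {r k : ℕ} (a : Fin r → ℕ) (c : ℤ) (h : Fin (k + 1) → Fin r → ℤ)
    (J : Finset (Fin (k + 1))) {X Y : ℕ} (hXY : X ≤ Y) : cnt a c h J X ≤ cnt a c h J Y := by
  classical
  unfold cnt
  apply card_le_card
  intro m hm
  rw [mem_filter, mem_Icc] at hm ⊢
  exact ⟨⟨hm.1.1, hm.1.2.trans hXY⟩, hm.2⟩

/-- all patterns occur -/
def AllC {r k : ℕ} (a : Fin r → ℕ) (c : ℤ) (C A N : ℕ) (h : Fin (k + 1) → Fin r → ℤ) : Prop :=
  ∀ J : Finset (Fin (k + 1)), (N : ℝ) / (Real.log N) ^ C ≤ (cnt a c h J (A * N) : ℝ)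

theorem mon_pos {r : ℕ} {a : Fin r → ℕ} (ha : ∀ l, 1 ≤ a l) (y : Fin r → ℤ) : 1 ≤ mon a y :=
  Nat.one_le_iff_ne_zero.2 (prod_ne_zero_iff.2 fun l _ => pow_ne_zero _ (by
    have := ha l
    omega))

theorem mon_le {r H : ℕ} {a : Fin r → ℕ} (ha : ∀ l, 1 ≤ a l) (y : Fin r → ℤ)
    (hy : ∀ l, 0 ≤ y l ∧ y l < H) : mon a y ≤ ∏ l, a l ^ H := by
  unfold mon
  refine prod_le_prod' fun l _ => Nat.pow_le_pow_right (ha l) ?_
  have := hy l
  omega

theorem mon_cast {r : ℕ} (a : Fin r → ℕ) (y : Fin r → ℤ) (hy : ∀ l, 0 ≤ y l) :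
    ((mon a y : ℕ) : ℚ) = ∏ l, (a l : ℚ) ^ (y l) := by
  unfold mon
  push_cast
  refine prod_congr rfl fun l _ => ?_
  conv_rhs => rw [← Int.toNat_of_nonneg (hy l)]
  rw [zpow_natCast]

theorem int_prime (v : ℤ) : (∃ q : ℕ, q.Prime ∧ (q : ℚ) = (v : ℚ)) ↔ v.toNat.Prime := by
  constructor
  · rintro ⟨q, hq, h⟩
    have h1 : (q : ℤ) = v := by exact_mod_cast h
    rw [← h1, Int.toNat_natCast]
    exact hq
  · intro h
    refine ⟨v.toNat, h, ?_⟩
    have h1 : 0 ≤ v := by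
      by_contra hneg
      rw [Int.toNat_of_nonpos (by omega)] at h
      exact Nat.not_prime_zero h
    have h2 : ((v.toNat : ℕ) : ℤ) = v := Int.toNat_of_nonneg h1
    exact_mod_cast congrArg (Int.cast : ℤ → ℚ) h2

theorem shift_AllC {r k H : ℕ} {a : Fin r → ℕ} (ha : ∀ l, 1 ≤ a l) (c : ℤ) {C N : ℕ}
    {t : Fin (k + 1) → Fin r → ℤ} (ht : ∀ i l, 0 ≤ t i l ∧ t i l < H)
    (h : AllP C N (fun i => fm a c (t i))) :
    AllC a c C (∏ l, a l ^ H) N (fun i => t i - t 0) := by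
  classical
  intro J
  refine (h J).trans ?_
  unfold pat cnt
  rw [Nat.cast_le]
  have h0 := mon_pos ha (t 0)
  have ha0 : ∀ l, (a l : ℚ) ≠ 0 := fun l => by
    have := ha l
    positivity
  apply card_le_card_of_injOn (fun n : ℕ => mon a (t 0) * n)
  · intro n hn
    rw [mem_coe, mem_filter, mem_Icc] at hn
    rw [mem_coe, mem_filter, mem_Icc]
    obtain ⟨⟨hn1, hn2⟩, hn3⟩ := hn
    refine ⟨⟨Nat.mul_pos h0 hn1, Nat.mul_le_mul (mon_le ha _ (ht 0)) hn2⟩, fun i => ?_⟩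
    rw [← hn3 i, ← int_prime]
    have e : (∏ l, (a l : ℚ) ^ ((t i - t 0) l)) * ((mon a (t 0) * n : ℕ) : ℚ) + c =
        (((fm a c (t i)).1 * (n : ℤ) + (fm a c (t i)).2 : ℤ) : ℚ) := by
      unfold fm
      push_cast
      rw [mon_cast a _ (fun l => (ht i l).1), mon_cast a _ (fun l => (ht 0 l).1), ← mul_assoc,
        ← prod_mul_distrib]
      congr 2
      refine prod_congr rfl fun l _ => ?_
      rw [Pi.sub_apply, ← zpow_add₀ (ha0 l), sub_add_cancel]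
    rw [e]
  · intro x _ y _ hxy
    exact Nat.eq_of_mul_eq_mul_left h0 hxy

open Classical in
/-- **the main theorem at the scale `N`** -/
theorem formB (r : ℕ) (hr : 1 ≤ r) (k s : ℕ) (hk : 1 ≤ k) (hs : 1 ≤ s) (ε : ℝ) (hε : 0 < ε) :
    ∃ (d n₀ C : ℕ) (ρ δ : ℝ), 0 < ρ ∧ 0 < δ ∧
    ∀ (a : Fin r → ℕ) (c : ℤ), (∀ l, 1 ≤ a l) → (∀ l, IsCoprime (a l : ℤ) c) →
    (∀ y y' : Fin r → ℕ, ∏ l, a l ^ y l = ∏ l, a l ^ y' l → y = y') → ∀ H : ℕ, n₀ ≤ H →
    ∀ᶠ N : ℕ in atTop, ∃ (Θ : Finset (Fin r → ℝ)) (τ : ℝ), Θ.card ≤ d ∧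
      ρ ≤ τ ∧ τ ≤ 1 ∧ δ * (H : ℝ) ^ r ≤ (Br Θ τ H).card ∧
      (((Fintype.piFinset (fun _ : Fin k => Br Θ τ H)).filter (fun y =>
        ¬ ∀ T ∈ Mats k s, T.det ≠ 0 →
          Function.Injective (nvr (act T y)) ∧
            AllC a c C (∏ l, a l ^ H) N (nvr (act T y)))).card : ℝ) ≤
        ε * ((Br Θ τ H).card : ℝ) ^ k := by
  obtain ⟨d, H₀, ρ, δ, ε', hρ, hδ, hε', hret⟩ :=
    returnsZr r hr k s hk hs (1 / 5) (by norm_num) ε hε
  obtain ⟨z, n₀, C, m, hm, hcov⟩ := covU k (min ε' (1 / 100)) (by positivity)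
  refine ⟨d, max (max H₀ n₀) 1, C, ρ, δ, hρ, hδ, ?_⟩
  intro a c ha hcop hind H hH
  have hHH₀ : H₀ ≤ H := (le_max_left _ _).trans ((le_max_left _ _).trans hH)
  have hHn₀ : n₀ ≤ H := (le_max_right _ _).trans ((le_max_left _ _).trans hH)
  have hH1 : 1 ≤ H := (le_max_right _ _).trans hH
  have hHr : (0 : ℝ) < H := by exact_mod_cast hH1
  set box : Finset (Fin r → ℤ) := Fintype.piFinset (fun _ => Ico 0 (H : ℤ)) with hbox
  have hbm : ∀ y, y ∈ box ↔ ∀ l, 0 ≤ y l ∧ y l < H := fun y => by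
    rw [hbox, Fintype.mem_piFinset]
    simp only [mem_Ico]
  have hbc : box.card = H ^ r := by
    rw [hbox, Fintype.card_piFinset_const, Int.card_Ico, sub_zero, Int.toNat_natCast]
  have hfinj : Set.InjOn (fm a c) box := by
    intro y hy y' hy' h
    have h1 := congrArg Prod.fst h
    unfold fm mon at h1
    simp only at h1
    have h2 : ∏ l, a l ^ (y l).toNat = ∏ l, a l ^ (y' l).toNat := by exact_mod_cast h1
    have h3 := hind (fun l => (y l).toNat) (fun l => (y' l).toNat) h2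
    funext l
    have h4 : (y l).toNat = (y' l).toNat := congrFun h3 l
    have h5 := (hbm y).1 (mem_coe.1 hy) l
    have h6 := (hbm y').1 (mem_coe.1 hy') l
    omega
  set V : Finset (ℤ × ℤ) := box.image (fm a c) with hV
  have hVc : V.card = H ^ r := by
    rw [hV, card_image_of_injOn hfinj, hbc]
  have hHHr : H ≤ H ^ r := by
    calc H = H ^ 1 := (pow_one H).symm
      _ ≤ H ^ r := Nat.pow_le_pow_right hH1 hr
  filter_upwards [hcov (∏ l, a l ^ H), eventually_ge_atTop (48 * c.natAbs + 1)] with N hN hN1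
  have hN1' : 48 * |c| + 1 ≤ (N : ℤ) := by
    rw [Int.abs_eq_natAbs]
    exact_mod_cast hN1
  have hcN : |c| ≤ (N : ℤ) := by
    have := abs_nonneg c
    linarith
  obtain ⟨U, hU1, hU2⟩ := hN V (by
    intro f hf
    obtain ⟨y, hy, rfl⟩ := mem_image.1 hf
    have h0 := mon_pos ha y
    unfold Adf fm
    refine ⟨by
      have : (0 : ℤ) < mon a y := by exact_mod_cast h0
      exact this.ne', ?_, hcN, ?_, ?_⟩
    · rw [Nat.abs_cast]
      exact_mod_cast mon_le ha y ((hbm y).1 hy)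
    · show IsCoprime ((mon a y : ℕ) : ℤ) c
      unfold mon
      push_cast
      exact IsCoprime.prod_left fun l _ => (hcop l).pow_left
    · intro t ht1 ht2
      have h3 : (1 : ℝ) ≤ mon a y := by exact_mod_cast h0
      have h4 : 48 * |(c : ℝ)| + 1 ≤ N := by exact_mod_cast hN1'
      have h5 := neg_abs_le (c : ℝ)
      have h6 : (0 : ℝ) ≤ N := Nat.cast_nonneg N
      have h7 : t ≤ (mon a y : ℝ) * t := by
        have : 0 ≤ t := by linarith
        nlinarith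
      push_cast
      linarith) (by
    intro p hp hpp
    by_cases hpc : (p : ℤ) ∣ c
    · refine ⟨1, ?_⟩
      intro f hf
      obtain ⟨y, hy, rfl⟩ := mem_image.1 hf
      unfold fm
      intro hdvd
      have h1 : (p : ℤ) ∣ ((mon a y : ℕ) : ℤ) := by
        have h3 := dvd_sub hdvd hpc
        simpa using h3
      have hpZ : Prime (p : ℤ) := Nat.prime_iff_prime_int.1 hpp
      unfold mon at h1
      push_cast at h1
      obtain ⟨l, _, h2⟩ := (hpZ.dvd_finsetProd_iff _).1 h1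
      have h3 : (p : ℤ) ∣ (a l : ℤ) := hpZ.dvd_of_dvd_pow h2
      exact hpZ.not_unit ((hcop l).isUnit_of_dvd' h3 hpc)
    · refine ⟨0, ?_⟩
      intro f hf
      obtain ⟨y, hy, rfl⟩ := mem_image.1 hf
      unfold fm
      simpa using hpc) (by rw [hVc]; exact hHn₀.trans hHHr)
  -- a dense almost complete set
  obtain ⟨j, hj⟩ : ∃ j, (1 / 5 : ℝ) * (H : ℝ) ^ r ≤ ((U j).card : ℝ) := by
    by_contra hcon
    push Not at hcon
    have hmm : min ε' (1 / 100) ≤ 1 / 100 := min_le_right _ _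
    have h1 := sum_rare V U (fun j => (hU1 j).1) (5 / 18 - min ε' (1 / 100)) (min ε' (1 / 100))
      (by linarith) hU2
    rw [hVc] at h1
    push_cast at h1
    have hm0 : (0 : ℝ) < m := by exact_mod_cast hm
    have h2 : ∑ j, ((U j).card : ℝ) ≤ ∑ _j : Fin m, (1 / 5 : ℝ) * (H : ℝ) ^ r :=
      sum_le_sum fun j _ => (hcon j).le
    rw [sum_const, card_univ, Fintype.card_fin, nsmul_eq_mul] at h2
    have h3 : (26 / 100 : ℝ) ≤ (5 / 18 - min ε' (1 / 100)) * (1 - min ε' (1 / 100)) := by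
      have h4 : 0 < min ε' (1 / 100) := by positivity
      nlinarith
    have h4 : (26 / 100 : ℝ) * (m * (H : ℝ) ^ r) ≤ (5 / 18 - min ε' (1 / 100)) * m *
        ((1 - min ε' (1 / 100)) * (H : ℝ) ^ r) := by
      calc (26 / 100 : ℝ) * (m * (H : ℝ) ^ r) ≤
          ((5 / 18 - min ε' (1 / 100)) * (1 - min ε' (1 / 100))) * (m * (H : ℝ) ^ r) :=
            mul_le_mul_of_nonneg_right h3 (by positivity)
        _ = _ := by ring
    have h5 : 0 < (m : ℝ) * (H : ℝ) ^ r := by positivity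
    nlinarith
  set A : Finset (Fin r → ℤ) := box.filter (fun x => fm a c x ∈ U j) with hA
  have hAU : A.image (fm a c) = U j := by
    ext f
    rw [mem_image]
    constructor
    · rintro ⟨x, hx, rfl⟩
      exact (mem_filter.1 hx).2
    · intro hf
      obtain ⟨x, hx, rfl⟩ := mem_image.1 ((hU1 j).1 hf)
      exact ⟨x, mem_filter.2 ⟨hx, hf⟩, rfl⟩
  have hAbox : ∀ x ∈ A, x ∈ box := fun x hx => (mem_filter.1 hx).1
  have hAc : A.card = (U j).card := by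
    rw [← hAU, card_image_of_injOn (hfinj.mono fun x hx => hAbox x hx)]
  obtain ⟨Θ, τ, h1, h2, h3, h4, h5⟩ := hret H hHH₀ A (fun x hx => (hbm x).1 (hAbox x hx))
    (by rw [hAc]; exact hj)
  refine ⟨Θ, τ, h1, h2, h3, h4, h5 (AllC a c C (∏ l, a l ^ H) N) ?_⟩
  -- the exceptional tuples
  have h6 : ((Fintype.piFinset (fun _ : Fin (k + 1) => A)).filter (fun t => Function.Injective t ∧
      ¬ AllC a c C (∏ l, a l ^ H) N (fun i => t i - t 0))).card ≤
      (exc (k := k) (U j) (AllP C N)).card := by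
    apply card_le_card_of_injOn (fun t => fun i => fm a c (t i))
    · intro t ht
      rw [mem_coe, mem_filter, Fintype.mem_piFinset] at ht
      rw [mem_coe, mem_exc]
      obtain ⟨g1, g2, g3⟩ := ht
      refine ⟨fun i => (mem_filter.1 (g1 i)).2, ?_, fun hP => g3 ?_⟩
      · intro i i' hii
        exact g2 (hfinj (hAbox _ (g1 i)) (hAbox _ (g1 i')) hii)
      · exact shift_AllC ha c (fun i => (hbm _).1 (hAbox _ (g1 i))) hP
    · intro t ht t' ht' h
      rw [mem_coe, mem_filter, Fintype.mem_piFinset] at ht ht'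
      funext i
      exact hfinj (hAbox _ (ht.1 i)) (hAbox _ (ht'.1 i)) (congrFun h i)
  have hUH : ((U j).card : ℝ) ≤ (H : ℝ) ^ r := by
    have := card_le_card (hU1 j).1
    rw [hVc] at this
    exact_mod_cast this
  calc (((Fintype.piFinset (fun _ : Fin (k + 1) => A)).filter (fun t => Function.Injective t ∧
      ¬ AllC a c C (∏ l, a l ^ H) N (fun i => t i - t 0))).card : ℝ) ≤
        ((exc (k := k) (U j) (AllP C N)).card : ℝ) := by
        exact_mod_cast h6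
    _ ≤ min ε' (1 / 100) * ((U j).card : ℝ) ^ (k + 1) := (hU1 j).2
    _ ≤ ε' * ((H : ℝ) ^ r) ^ (k + 1) := by
        have := min_le_left ε' (1 / 100)
        gcongr

open Classical in
/-- **the main theorem at the scale `X`** -/
theorem formX (r : ℕ) (hr : 1 ≤ r) (k s : ℕ) (hk : 1 ≤ k) (hs : 1 ≤ s) (ε : ℝ) (hε : 0 < ε) :
    ∃ (d n₀ C : ℕ) (ρ δ : ℝ), 0 < ρ ∧ 0 < δ ∧
    ∀ (a : Fin r → ℕ) (c : ℤ), (∀ l, 1 ≤ a l) → (∀ l, IsCoprime (a l : ℤ) c) →
    (∀ y y' : Fin r → ℕ, ∏ l, a l ^ y l = ∏ l, a l ^ y' l → y = y') → ∀ H : ℕ, n₀ ≤ H →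
    ∀ᶠ X : ℕ in atTop, ∃ (Θ : Finset (Fin r → ℝ)) (τ : ℝ), Θ.card ≤ d ∧
      ρ ≤ τ ∧ τ ≤ 1 ∧ δ * (H : ℝ) ^ r ≤ (Br Θ τ H).card ∧
      (((Fintype.piFinset (fun _ : Fin k => Br Θ τ H)).filter (fun y =>
        ¬ ∀ T ∈ Mats k s, T.det ≠ 0 →
          Function.Injective (nvr (act T y)) ∧
            ∀ J : Finset (Fin (k + 1)), (X : ℝ) / (Real.log X) ^ C ≤
              (cnt a c (nvr (act T y)) J X : ℝ))).card : ℝ) ≤
        ε * ((Br Θ τ H).card : ℝ) ^ k := by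
  obtain ⟨d, n₀, C, ρ, δ, hρ, hδ, hmain⟩ := formB r hr k s hk hs ε hε
  refine ⟨d, n₀, C + 1, ρ, δ, hρ, hδ, fun a c ha hcop hind H hH => ?_⟩
  have h1 := hmain a c ha hcop hind H hH
  set A : ℕ := ∏ l, a l ^ H with hA
  have hA1 : 1 ≤ A := Nat.one_le_iff_ne_zero.2 (prod_ne_zero_iff.2 fun l _ => pow_ne_zero _ (by
    have := ha l
    omega))
  have hdiv : Tendsto (fun X : ℕ => X / A) atTop atTop :=
    Nat.tendsto_div_const_atTop (by omega)
  have tL : Tendsto (fun N : ℕ => Real.log (N : ℝ)) atTop atTop :=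
    Real.tendsto_log_atTop.comp tendsto_natCast_atTop_atTop
  filter_upwards [hdiv.eventually h1, tL.eventually_ge_atTop (2 * (A : ℝ)),
    hdiv.eventually (tL.eventually_ge_atTop 1), eventually_ge_atTop (2 * A)] with X hX hlog hlogN hX2
  obtain ⟨Θ, τ, g1, g2, g3, g4, g5⟩ := hX
  refine ⟨Θ, τ, g1, g2, g3, g4, le_trans ?_ g5⟩
  rw [Nat.cast_le]
  apply card_le_card
  intro y hy
  rw [mem_filter] at hy ⊢
  refine ⟨hy.1, fun hall => hy.2 fun T hT hdet => ?_⟩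
  obtain ⟨g6, g7⟩ := hall T hT hdet
  refine ⟨g6, fun J => ?_⟩
  have hAN : A * (X / A) ≤ X := Nat.mul_div_le X A
  refine le_trans ?_ ((g7 J).trans (Nat.cast_le.2 (cnt_mono a c _ J hAN)))
  -- `X / (2 A) ≤ N`
  have hAr : (0 : ℝ) < A := by exact_mod_cast hA1
  have hN : (X : ℝ) ≤ 2 * A * ((X / A : ℕ) : ℝ) := by
    have h2 : X < A * (X / A + 1) := Nat.lt_mul_div_succ X (by omega)
    have h3 : 1 ≤ X / A := (Nat.one_le_div_iff (by omega)).2 (by omega)
    have h4 : X ≤ 2 * A * (X / A) := by nlinarith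
    exact_mod_cast h4
  have hXr : (0 : ℝ) < X := by
    have : 0 < X := by omega
    exact_mod_cast this
  have hNX : Real.log ((X / A : ℕ) : ℝ) ≤ Real.log X := by
    apply Real.log_le_log
    · have h3 : 1 ≤ X / A := (Nat.one_le_div_iff (by omega)).2 (by omega)
      exact_mod_cast h3
    · exact_mod_cast Nat.div_le_self X A
  have hl0 : 0 < Real.log ((X / A : ℕ) : ℝ) := by linarith
  have hL0 : 0 < Real.log (X : ℝ) := by linarith
  rw [div_le_div_iff₀ (by positivity) (by positivity)]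
  calc (X : ℝ) * Real.log ((X / A : ℕ) : ℝ) ^ C ≤
        (2 * A * ((X / A : ℕ) : ℝ)) * Real.log (X : ℝ) ^ C := by gcongr
    _ ≤ (Real.log (X : ℝ) * ((X / A : ℕ) : ℝ)) * Real.log (X : ℝ) ^ C := by gcongr
    _ = ((X / A : ℕ) : ℝ) * Real.log (X : ℝ) ^ (C + 1) := by ring

end Pool.Agent.N688.MV
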