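import Pool.Agent.N646.AC.Vec

set_option autoImplicit false
set_option maxHeartbeats 4000000

/-!
# Bohr sets of returns in `ℤ ^ r`
-/

namespace Pool.Agent.N688.MV

open Finset
open Pool.Agent.N646.AC

/-- digits -/
def enc (W : ℕ) {r : ℕ} (u : Fin r → ℤ) : ℤ := ∑ l, u l * (W : ℤ) ^ (l : ℕ)

theorem enc_succ (W : ℕ) {r : ℕ} (u : Fin (r + 1) → ℤ) :
    enc W u = u 0 + W * enc W (fun l => u l.succ) := by
  unfold enc
  rw [Fin.sum_univ_succ, Finset.mul_sum]
  congr 1
  · simp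
  · refine sum_congr rfl fun l _ => ?_
    rw [Fin.val_succ, pow_succ]
    ring

theorem enc_inj (W : ℕ) : ∀ {r : ℕ} (u v : Fin r → ℤ), (∀ l, |u l - v l| < W) →
    enc W u = enc W v → u = v := by
  intro r
  induction r with
  | zero =>
    intro u v _ _
    funext l
    exact l.elim0
  | succ r ih =>
    intro u v h he
    rw [enc_succ, enc_succ] at he
    have hW : (0 : ℤ) < W := lt_of_le_of_lt (abs_nonneg _) (h 0)
    have h1 : (W : ℤ) ∣ u 0 - v 0 := ⟨enc W (fun l => v l.succ) - enc W (fun l => u l.succ), by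
      rw [mul_sub]
      linarith⟩
    have h2 : u 0 - v 0 = 0 := Int.eq_zero_of_abs_lt_dvd h1 (h 0)
    have h3 : (W : ℤ) * enc W (fun l => u l.succ) = W * enc W (fun l => v l.succ) := by linarith
    have h4 := ih (fun l => u l.succ) (fun l => v l.succ) (fun l => h l.succ)
      (mul_left_cancel₀ hW.ne' h3)
    funext l
    refine Fin.cases ?_ (fun l => ?_) l
    · linarith
    · exact congrFun h4 l

theorem enc_bound (W : ℕ) (hW : 1 ≤ W) : ∀ {r : ℕ} (u : Fin r → ℤ), (∀ l, |u l| ≤ (W : ℤ) - 1) →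
    |enc W u| ≤ (W : ℤ) ^ r - 1 := by
  intro r
  induction r with
  | zero =>
    intro u _
    unfold enc
    simp
  | succ r ih =>
    intro u h
    rw [enc_succ]
    have h1 := ih (fun l => u l.succ) (fun l => h l.succ)
    have h2 := h 0
    have hW' : (0 : ℤ) ≤ W := Int.natCast_nonneg _
    calc |u 0 + W * enc W (fun l => u l.succ)| ≤ |u 0| + |W * enc W (fun l => u l.succ)| :=
          abs_add_le _ _
      _ = |u 0| + W * |enc W (fun l => u l.succ)| := by rw [abs_mul, abs_of_nonneg hW']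
      _ ≤ ((W : ℤ) - 1) + W * ((W : ℤ) ^ r - 1) := add_le_add h2 (mul_le_mul_of_nonneg_left h1 hW')
      _ = (W : ℤ) ^ (r + 1) - 1 := by ring

theorem enc_nonneg (W : ℕ) {r : ℕ} (u : Fin r → ℤ) (h : ∀ l, 0 ≤ u l) : 0 ≤ enc W u :=
  sum_nonneg fun l _ => mul_nonneg (h l) (by positivity)

theorem enc_sub (W : ℕ) {r : ℕ} (u v : Fin r → ℤ) : enc W (u - v) = enc W u - enc W v := by
  unfold enc
  rw [← sum_sub_distrib]
  refine sum_congr rfl fun l _ => ?_
  rw [Pi.sub_apply, sub_mul]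

theorem enc_zero (W : ℕ) {r : ℕ} : enc W (0 : Fin r → ℤ) = 0 := by
  unfold enc
  simp

/-- the action of a matrix -/
def act {k r : ℕ} (T : Matrix (Fin k) (Fin k) ℤ) (y : Fin k → Fin r → ℤ) : Fin k → Fin r → ℤ :=
  fun i l => ∑ j, T i j * y j l

/-- the normalised vector `(0, h)` -/
def nvr {k r : ℕ} (h : Fin k → Fin r → ℤ) : Fin (k + 1) → Fin r → ℤ := Fin.cons 0 h

theorem enc_act (W : ℕ) {k r : ℕ} (T : Matrix (Fin k) (Fin k) ℤ) (y : Fin k → Fin r → ℤ) (i : Fin k) :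
    enc W (act T y i) = T.mulVec (fun j => enc W (y j)) i := by
  unfold enc act
  rw [Matrix.mulVec, dotProduct]
  simp only [Finset.sum_mul, Finset.mul_sum]
  rw [sum_comm]
  refine sum_congr rfl fun j _ => sum_congr rfl fun l _ => ?_
  ring

theorem enc_nvr (W : ℕ) {k r : ℕ} (T : Matrix (Fin k) (Fin k) ℤ) (y : Fin k → Fin r → ℤ)
    (i : Fin (k + 1)) :
    enc W (nvr (act T y) i) = nv (T.mulVec (fun j => enc W (y j))) i := by
  refine Fin.cases ?_ (fun i => ?_) i
  · unfold nvr nv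
    rw [Fin.cons_zero, Fin.cons_zero, enc_zero]
  · unfold nvr nv
    rw [Fin.cons_succ, Fin.cons_succ, enc_act]

/-- the Bohr set in `ℤ ^ r` -/
noncomputable def Br {r : ℕ} (Θ : Finset (Fin r → ℝ)) (τ : ℝ) (H : ℕ) : Finset (Fin r → ℤ) :=
  open Classical in
  (Fintype.piFinset (fun _ : Fin r => Icc (-(H : ℤ)) H)).filter (fun b => ∀ θ ∈ Θ,
    ‖Complex.exp (2 * Real.pi * Complex.I * ∑ l, (θ l : ℂ) * (b l : ℂ)) - 1‖ ≤ τ)

theorem mem_Br {r : ℕ} {Θ : Finset (Fin r → ℝ)} {τ : ℝ} {H : ℕ} {b : Fin r → ℤ} : b ∈ Br Θ τ H ↔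
    (∀ l, |b l| ≤ H) ∧ ∀ θ ∈ Θ,
      ‖Complex.exp (2 * Real.pi * Complex.I * ∑ l, (θ l : ℂ) * (b l : ℂ)) - 1‖ ≤ τ := by
  unfold Br
  rw [mem_filter, Fintype.mem_piFinset]
  simp only [mem_Icc, ← abs_le]

theorem enc_exp (W : ℕ) {r : ℕ} (θ : ℝ) (b : Fin r → ℤ) :
    ∑ l : Fin r, ((θ * (W : ℝ) ^ (l : ℕ) : ℝ) : ℂ) * (b l : ℂ) = (θ : ℂ) * (enc W b : ℤ) := by
  unfold enc
  push_cast
  rw [Finset.mul_sum]
  refine sum_congr rfl fun l _ => ?_
  ring

open Classical in
/-- **vectors in Bohr sets of `ℤ ^ r`** -/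
theorem returnsZr (r : ℕ) (hr : 1 ≤ r) (k s : ℕ) (hk : 1 ≤ k) (hs : 1 ≤ s) (α : ℝ) (hα : 0 < α)
    (ε : ℝ) (hε : 0 < ε) :
    ∃ (d H₀ : ℕ) (ρ δ ε' : ℝ), 0 < ρ ∧ 0 < δ ∧ 0 < ε' ∧ ∀ H : ℕ, H₀ ≤ H →
      ∀ A : Finset (Fin r → ℤ), (∀ a ∈ A, ∀ l, 0 ≤ a l ∧ a l < H) → α * (H : ℝ) ^ r ≤ A.card →
      ∃ (Θ : Finset (Fin r → ℝ)) (τ : ℝ), Θ.card ≤ d ∧ ρ ≤ τ ∧ τ ≤ 1 ∧
      δ * (H : ℝ) ^ r ≤ (Br Θ τ H).card ∧ ∀ P : (Fin (k + 1) → Fin r → ℤ) → Prop,
      (((Fintype.piFinset (fun _ : Fin (k + 1) => A)).filter (fun t => Function.Injective t ∧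
        ¬ P (fun i => t i - t 0))).card : ℝ) ≤ ε' * ((H : ℝ) ^ r) ^ (k + 1) →
      (((Fintype.piFinset (fun _ : Fin k => Br Θ τ H)).filter (fun y =>
        ¬ ∀ T ∈ Mats k s, T.det ≠ 0 →
          Function.Injective (nvr (act T y)) ∧ P (nvr (act T y)))).card : ℝ) ≤
        ε * ((Br Θ τ H).card : ℝ) ^ k := by
  set C₁ : ℕ := 2 * k * s + 5 with hC₁
  have hC₁r : (0 : ℝ) < C₁ := by rw [hC₁]; positivity
  set ε₁ : ℝ := min (ε / 2 ^ k) (1 / 2) with hε₁
  have hε₁0 : 0 < ε₁ := lt_min (by positivity) (by norm_num)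
  have hε₁1 : ε₁ ≤ 1 / 2 := min_le_right _ _
  obtain ⟨d, H₀, ρ, δ, ε', hρ, hδ, hε', hret⟩ :=
    returnsZ k s (α / (C₁ : ℝ) ^ r) (by positivity) ε₁ hε₁0
  refine ⟨d, max H₀ 1, ρ, δ / 2, ε', hρ, by positivity, hε', ?_⟩
  intro H hH A hA hAc
  have hH0 : H₀ ≤ H := (le_max_left _ _).trans hH
  have hH1 : 1 ≤ H := (le_max_right _ _).trans hH
  have hHr : (1 : ℝ) ≤ H := by exact_mod_cast hH1
  set W : ℕ := (2 * k * s + 4) * H + 1 with hW
  have hW1 : 1 ≤ W := by rw [hW]; omega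
  have hWle : W ≤ C₁ * H := by
    rw [hW, hC₁]
    nlinarith
  have hWH : H ≤ W := by
    rw [hW]
    exact (Nat.le_mul_of_pos_left H (by omega)).trans (Nat.le_succ _)
  set H' : ℕ := W ^ r with hH'
  have hHH' : H ≤ H' := by
    calc H ≤ W := hWH
      _ = W ^ 1 := (pow_one W).symm
      _ ≤ W ^ r := Nat.pow_le_pow_right hW1 hr
  have hH'r : ((H' : ℕ) : ℝ) ≤ (C₁ : ℝ) ^ r * (H : ℝ) ^ r := by
    rw [hH', ← mul_pow]
    push_cast
    exact pow_le_pow_left₀ (by positivity) (by exact_mod_cast hWle) r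
  have hH'r2 : (H : ℝ) ^ r ≤ H' := by
    rw [hH']
    push_cast
    exact pow_le_pow_left₀ (by positivity) (by exact_mod_cast hWH) r
  have hWb : (H : ℤ) ≤ (W : ℤ) - 1 := by
    rw [hW]
    push_cast
    nlinarith [(Int.natCast_nonneg k), (Int.natCast_nonneg s), (Int.natCast_nonneg H),
      mul_nonneg (mul_nonneg (Int.natCast_nonneg k) (Int.natCast_nonneg s)) (Int.natCast_nonneg H)]
  -- injectivity
  have hinj : ∀ u v : Fin r → ℤ, (∀ l, |u l| ≤ H) → (∀ l, |v l| ≤ k * s * H) →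
      enc W u = enc W v → u = v := by
    intro u v hu hv he
    refine enc_inj W u v (fun l => ?_) he
    have h1 := hu l
    have h2 := hv l
    have h3 : |u l - v l| ≤ |u l| + |v l| := abs_sub _ _
    have h4 : (0 : ℤ) ≤ k * s * H := by positivity
    have h5 : (W : ℤ) = (2 * k * s + 4) * H + 1 := by rw [hW]; push_cast; ring
    have h6 : (0 : ℤ) ≤ H := Int.natCast_nonneg _
    rw [h5]
    nlinarith
  have hinj1 : ∀ u v : Fin r → ℤ, (∀ l, |u l| ≤ H) → (∀ l, |v l| ≤ H) →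
      enc W u = enc W v → u = v := by
    intro u v hu hv he
    refine hinj u v hu (fun l => (hv l).trans ?_) he
    have h1 : (1 : ℤ) ≤ k := by exact_mod_cast hk
    have h2 : (1 : ℤ) ≤ s := by exact_mod_cast hs
    have h3 : (1 : ℤ) ≤ k * s := by nlinarith
    nlinarith [Int.natCast_nonneg H]
  -- the set of the codes
  set A' : Finset ℤ := A.image (enc W) with hA'
  have hAH : ∀ a ∈ A, ∀ l, |a l| ≤ H := fun a ha l => by
    have := hA a ha l
    rw [abs_of_nonneg this.1]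
    exact this.2.le
  have hA'c : A'.card = A.card := by
    rw [hA']
    exact card_image_of_injOn fun a ha b hb hab =>
      hinj1 a b (hAH a (mem_coe.1 ha)) (hAH b (mem_coe.1 hb)) hab
  have hA'sub : A' ⊆ Ico 0 (H' : ℤ) := by
    intro x hx
    obtain ⟨a, ha, rfl⟩ := mem_image.1 hx
    rw [mem_Ico]
    have h1 := enc_bound W hW1 a (fun l => (hAH a ha l).trans hWb)
    refine ⟨enc_nonneg W a fun l => (hA a ha l).1, ?_⟩
    rw [hH']
    push_cast
    have := (abs_le.1 h1).2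
    linarith
  have hA'd : α / (C₁ : ℝ) ^ r * H' ≤ A'.card := by
    rw [hA'c]
    refine le_trans ?_ hAc
    rw [div_mul_eq_mul_div, div_le_iff₀ (by positivity)]
    calc α * (H' : ℝ) ≤ α * ((C₁ : ℝ) ^ r * (H : ℝ) ^ r) := mul_le_mul_of_nonneg_left hH'r hα.le
      _ = α * (H : ℝ) ^ r * (C₁ : ℝ) ^ r := by ring
  obtain ⟨Θ', τ, h1, h2, h3, h4, h5⟩ := hret H' (hH0.trans hHH') A' hA'sub hA'd
  set Θ : Finset (Fin r → ℝ) := Θ'.image (fun θ l => θ * (W : ℝ) ^ (l : ℕ)) with hΘ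
  -- membership
  have hmem : ∀ u : Fin r → ℤ, (∀ l, |u l| ≤ H) → (u ∈ Br Θ τ H ↔ enc W u ∈ Bz Θ' τ H') := by
    intro u hu
    rw [mem_Br, mem_Bz]
    have hb := enc_bound W hW1 u (fun l => (hu l).trans hWb)
    have hb' : -(H' : ℤ) ≤ enc W u ∧ enc W u ≤ H' := by
      rw [hH']
      push_cast
      have := abs_le.1 hb
      constructor <;> linarith [this.1, this.2]
    constructor
    · rintro ⟨_, h6⟩
      refine ⟨hb', fun θ hθ => ?_⟩
      have h7 := h6 _ (mem_image_of_mem _ hθ)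
      rw [enc_exp] at h7
      rwa [mul_assoc]
    · rintro ⟨_, h6⟩
      refine ⟨hu, fun θ hθ => ?_⟩
      obtain ⟨θ', hθ', rfl⟩ := mem_image.1 hθ
      have h7 := h6 _ hθ'
      rw [enc_exp]
      rwa [mul_assoc] at h7
  -- the property of the codes
  set PP : ((Fin (k + 1) → Fin r → ℤ) → Prop) → (Fin (k + 1) → ℤ) → Prop := fun P t =>
    ∃ u : Fin (k + 1) → Fin r → ℤ, (∀ i l, |u i l| ≤ H) ∧ (∀ i, enc W (u i) = t i) ∧ P u with hPP
  have hbad : ∀ P : (Fin (k + 1) → Fin r → ℤ) → Prop,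
      (((Fintype.piFinset (fun _ : Fin (k + 1) => A')).filter (fun t => Function.Injective t ∧
        ¬ PP P (fun i => t i - t 0))).card) ≤
      (((Fintype.piFinset (fun _ : Fin (k + 1) => A)).filter (fun t => Function.Injective t ∧
        ¬ P (fun i => t i - t 0))).card) := by
    intro P
    have hex : ∀ x ∈ A', ∃ a ∈ A, enc W a = x := fun x hx => mem_image.1 hx
    choose! dec hdec1 hdec2 using hex
    apply card_le_card_of_injOn (fun t i => dec (t i))
    · intro t ht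
      rw [mem_coe, mem_filter, Fintype.mem_piFinset] at ht
      rw [mem_coe, mem_filter, Fintype.mem_piFinset]
      obtain ⟨g1, g2, g3⟩ := ht
      refine ⟨fun i => hdec1 _ (g1 i), ?_, fun hP => g3 ?_⟩
      · intro i j hij
        apply g2
        rw [← hdec2 _ (g1 i), ← hdec2 _ (g1 j)]
        exact congrArg (enc W) hij
      · refine ⟨fun i => dec (t i) - dec (t 0), fun i l => ?_, fun i => ?_, hP⟩
        · have g4 := hA _ (hdec1 _ (g1 i)) l
          have g5 := hA _ (hdec1 _ (g1 0)) l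
          show |dec (t i) l - dec (t 0) l| ≤ H
          rw [abs_le]
          constructor <;> linarith [g4.1, g4.2, g5.1, g5.2]
        · rw [enc_sub, hdec2 _ (g1 i), hdec2 _ (g1 0)]
    · intro t ht t' ht' htt
      rw [mem_coe, mem_filter, Fintype.mem_piFinset] at ht ht'
      funext i
      rw [← hdec2 _ (ht.1 i), ← hdec2 _ (ht'.1 i)]
      exact congrArg (enc W) (congrFun htt i)
  have hHk : ((H : ℝ) ^ r) ^ (k + 1) ≤ (H' : ℝ) ^ (k + 1) :=
    pow_le_pow_left₀ (by positivity) hH'r2 _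
  -- the codes of the elements of the Bohr set
  have himg : ((Br Θ τ H).image (enc W)).card = (Br Θ τ H).card :=
    card_image_of_injOn fun a ha b hb hab =>
      hinj1 a b (mem_Br.1 (mem_coe.1 ha)).1 (mem_Br.1 (mem_coe.1 hb)).1 hab
  have hsub : (Br Θ τ H).image (enc W) ⊆ Bz Θ' τ H' := by
    intro x hx
    obtain ⟨u, hu, rfl⟩ := mem_image.1 hx
    exact (hmem u (mem_Br.1 hu).1).1 hu
  have hle : ((Br Θ τ H).card : ℝ) ≤ (Bz Θ' τ H').card := by
    rw [← himg]
    exact_mod_cast card_le_card hsub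
  have hB'0 : (0 : ℝ) ≤ (Bz Θ' τ H').card := Nat.cast_nonneg _
  have h1M : (1 : Matrix (Fin k) (Fin k) ℤ) ∈ Mats k s := by
    rw [mem_Mats]
    intro i j
    rw [Matrix.one_apply]
    split_ifs
    · rw [abs_one]; exact_mod_cast hs
    · rw [abs_zero]; positivity
  have hlarge : (1 - ε₁) * (Bz Θ' τ H').card ≤ (Br Θ τ H).card := by
    have g1 := h5 (PP fun _ => True) (by
      refine le_trans (Nat.cast_le.2 (hbad fun _ => True)) ?_
      simp only [not_true_eq_false, and_false, filter_false, card_empty, Nat.cast_zero]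
      positivity)
    have g2 : (Fintype.piFinset (fun _ : Fin k => Bz Θ' τ H')) ⊆
        ((Fintype.piFinset (fun _ : Fin k => Bz Θ' τ H')).filter (fun y =>
        ¬ ∀ T ∈ Mats k s, T.det ≠ 0 →
          Function.Injective (nv (T.mulVec y)) ∧ PP (fun _ => True) (nv (T.mulVec y)))) ∪
        Fintype.piFinset (fun _ : Fin k => (Br Θ τ H).image (enc W)) := by
      intro y hy
      rw [mem_union, mem_filter]
      by_cases hb : ∀ T ∈ Mats k s, T.det ≠ 0 →
          Function.Injective (nv (T.mulVec y)) ∧ PP (fun _ => True) (nv (T.mulVec y))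
      · right
        obtain ⟨_, u, g3, g4, _⟩ := hb 1 h1M (by rw [Matrix.det_one]; exact one_ne_zero)
        rw [Fintype.mem_piFinset]
        intro i
        have g5 := g4 i.succ
        unfold nv at g5
        rw [Fin.cons_succ, Matrix.one_mulVec] at g5
        rw [mem_image]
        refine ⟨u i.succ, (hmem _ (g3 _)).2 ?_, g5⟩
        rw [g5]
        exact Fintype.mem_piFinset.1 hy i
      · left
        exact ⟨hy, hb⟩
    have g3 := (card_le_card g2).trans (card_union_le _ _)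
    rw [Fintype.card_piFinset_const, Fintype.card_piFinset_const, himg] at g3
    have g4 : ((Bz Θ' τ H').card : ℝ) ^ k ≤ ε₁ * ((Bz Θ' τ H').card : ℝ) ^ k +
        ((Br Θ τ H).card : ℝ) ^ k := by
      have : (((Bz Θ' τ H').card ^ k : ℕ) : ℝ) ≤ _ := Nat.cast_le.2 g3
      push_cast at this
      linarith
    -- `b ^ k ≥ (1 - ε₁) B ^ k` and `b ≤ B`
    obtain ⟨k', rfl⟩ : ∃ k', k = k' + 1 := ⟨k - 1, by omega⟩
    rcases eq_or_lt_of_le hB'0 with hz | hpos
    · rw [← hz, mul_zero]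
      exact Nat.cast_nonneg _
    · have g5 : ((Br Θ τ H).card : ℝ) ^ (k' + 1) ≤
          ((Br Θ τ H).card : ℝ) * ((Bz Θ' τ H').card : ℝ) ^ k' := by
        rw [pow_succ, mul_comm]
        exact mul_le_mul_of_nonneg_left (pow_le_pow_left₀ (Nat.cast_nonneg _) hle k')
          (Nat.cast_nonneg _)
      have g6 : (1 - ε₁) * ((Bz Θ' τ H').card : ℝ) * ((Bz Θ' τ H').card : ℝ) ^ k' ≤
          ((Br Θ τ H).card : ℝ) * ((Bz Θ' τ H').card : ℝ) ^ k' := by
        rw [pow_succ] at g4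
        nlinarith
      exact le_of_mul_le_mul_right g6 (pow_pos hpos k')
  refine ⟨Θ, τ, card_image_le.trans h1, h2, h3, ?_, ?_⟩
  · have g1 : δ * (H : ℝ) ^ r ≤ (Bz Θ' τ H').card :=
      (mul_le_mul_of_nonneg_left hH'r2 hδ.le).trans h4
    calc δ / 2 * (H : ℝ) ^ r = 1 / 2 * (δ * (H : ℝ) ^ r) := by ring
      _ ≤ 1 / 2 * (Bz Θ' τ H').card := mul_le_mul_of_nonneg_left g1 (by norm_num)
      _ ≤ (1 - ε₁) * (Bz Θ' τ H').card := mul_le_mul_of_nonneg_right (by linarith) hB'0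
      _ ≤ _ := hlarge
  · intro P hP
    have g1 := h5 (PP P) ((Nat.cast_le.2 (hbad P)).trans (hP.trans
      (mul_le_mul_of_nonneg_left hHk hε'.le)))
    have g2 : (((Fintype.piFinset (fun _ : Fin k => Br Θ τ H)).filter (fun y =>
        ¬ ∀ T ∈ Mats k s, T.det ≠ 0 →
          Function.Injective (nvr (act T y)) ∧ P (nvr (act T y)))).card) ≤
        (((Fintype.piFinset (fun _ : Fin k => Bz Θ' τ H')).filter (fun y =>
        ¬ ∀ T ∈ Mats k s, T.det ≠ 0 →
          Function.Injective (nv (T.mulVec y)) ∧ PP P (nv (T.mulVec y)))).card) := by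
      apply card_le_card_of_injOn (fun y j => enc W (y j))
      · intro y hy
        rw [mem_coe, mem_filter, Fintype.mem_piFinset] at hy
        rw [mem_coe, mem_filter, Fintype.mem_piFinset]
        obtain ⟨g3, g4⟩ := hy
        have hyH : ∀ j l, |y j l| ≤ H := fun j l => (mem_Br.1 (g3 j)).1 l
        refine ⟨fun j => (hmem _ (hyH j)).1 (g3 j), fun hall => g4 fun T hT hdet => ?_⟩
        obtain ⟨g5, u, g6, g7, g8⟩ := hall T hT hdet
        have hub : ∀ i l, |nvr (act T y) i l| ≤ k * s * H := by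
          intro i l
          refine Fin.cases ?_ (fun i => ?_) i
          · unfold nvr
            rw [Fin.cons_zero, Pi.zero_apply, abs_zero]
            positivity
          · unfold nvr act
            rw [Fin.cons_succ]
            calc |∑ j, T i j * y j l| ≤ ∑ j, |T i j * y j l| := abs_sum_le_sum_abs _ _
              _ ≤ ∑ _j : Fin k, (s : ℤ) * H := sum_le_sum fun j _ => by
                  rw [abs_mul]
                  exact mul_le_mul (mem_Mats.1 hT i j) (hyH j l) (abs_nonneg _) (by positivity)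
              _ = k * s * H := by
                  rw [sum_const, card_univ, Fintype.card_fin, nsmul_eq_mul]
                  ring
        have hue : u = nvr (act T y) := by
          funext i
          refine hinj _ _ (g6 i) (hub i) ?_
          rw [g7 i, enc_nvr]
        refine ⟨?_, by rw [← hue]; exact g8⟩
        intro i j hij
        apply g5
        rw [← enc_nvr, ← enc_nvr, hij]
      · intro y hy y' hy' hyy
        rw [mem_coe, mem_filter, Fintype.mem_piFinset] at hy hy'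
        funext j
        exact hinj1 _ _ (mem_Br.1 (hy.1 j)).1 (mem_Br.1 (hy'.1 j)).1 (congrFun hyy j)
    have g3 : ε₁ * ((Bz Θ' τ H').card : ℝ) ^ k ≤ ε * ((Br Θ τ H).card : ℝ) ^ k := by
      have g4 : ((Bz Θ' τ H').card : ℝ) ≤ 2 * (Br Θ τ H).card := by nlinarith
      calc ε₁ * ((Bz Θ' τ H').card : ℝ) ^ k ≤ ε / 2 ^ k * (2 * ((Br Θ τ H).card : ℝ)) ^ k := by
            apply mul_le_mul (min_le_left _ _) (pow_le_pow_left₀ hB'0 g4 k) (by positivity)
              (by positivity)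
        _ = ε * ((Br Θ τ H).card : ℝ) ^ k := by
            rw [mul_pow]
            field_simp
    exact (Nat.cast_le.2 g2).trans (g1.trans g3)

end Pool.Agent.N688.MV
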